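import Pool.Agent.H389R2.NS.A4aD
import Pool.Agent.H12R2.Sep.Defs4
import Pool.Agent.H12R2.Sep.BlkSum
import Pool.Agent.H984R4.NP.Model
import Pool.Agent.H973R2.Conn

/-!
Double points of the exploration path: definitions (events on the lattice).
Everything is at `p = 1/2` (`PQ (1/2) S`, a uniformly random subset of the finite edge set `S`).
`U = L * m` is the unit of length, `m` the width of the tubes of the plus event.
-/

namespace Pool.Agent.W92.DP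

open H974 H12S Finset H389NS H984P H984N MeasureTheory Filter Topology

/-- Two distinct closed dual clusters cross the annulus between the squares of radius `d` and `k`
around `c` (in the lattice of faces; `dl` maps an edge to its dual edge). -/
def A4d (c : ℤ × ℤ) (d k : ℕ) (F : Set Edg) : Prop := A4a c d k (dl '' Fᶜ)

/-- The configuration seen from `v`. -/
def shc (v : Vtx) (F : Set Edg) : Set Edg := {e | (e.1 + v.1, e.2.1 + v.2, e.2.2) ∈ F}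

/-- The plus event at an edge `(v, β)`, and this edge is open. -/
def E4 (L m : ℕ) (v : Vtx) (F : Finset Edg) : Prop :=
  ∃ β : Bool, Plus (4 * L * m) m (16 * L * m) (e0 β) (shc v ↑F) ∧ ((v.1, v.2, β) : Edg) ∈ F

/-- Dual top-bottom crossing of `[a,b] × [c,d]`. -/
def DTB (a b c d : ℤ) (F : Finset Edg) : Prop :=
  ∃ x x' : ℤ, (a ≤ x ∧ x < b) ∧ (a ≤ x' ∧ x' < b) ∧
    DReach (↑(LRE a b c d \ F) : Set Edg) (x, c - 1) (x', d)

/-- Dual left-right crossing of `[a,b] × [c,d]`. -/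
def DLR (a b c d : ℤ) (F : Finset Edg) : Prop :=
  ∃ y y' : ℤ, (c ≤ y ∧ y < d) ∧ (c ≤ y' ∧ y' < d) ∧
    DReach (↑(TBE a b c d \ F) : Set Edg) (a - 1, y) (b, y')

/-- Open crossings which join the bottom arms to the boundary to the left of `(0,0)`. -/
def GO (U : ℤ) (F : Finset Edg) : Prop :=
  LRc (-(17 * U)) (-U) (4 * U) (12 * U) F ∧ TBc (-(17 * U)) (-U) 0 (12 * U) F

/-- Dual crossings which join the left and right arms to the boundary to the right of `(0,0)`. -/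
def GD (U : ℤ) (F : Finset Edg) : Prop :=
  (DTB U (6 * U) 0 (38 * U) F ∧ DLR (-(24 * U)) (6 * U) (36 * U) (38 * U) F) ∧
    DTB (-(24 * U)) (-(19 * U)) (12 * U) (38 * U) F

/-- The core. -/
noncomputable def core4 (U : ℤ) : Finset Vtx :=
  Finset.Icc (-(10 * U)) (-(8 * U)) ×ˢ Finset.Icc (17 * U) (19 * U)

/-- The half annulus which contains everything; those of units `U`, `64 U`, `64² U`, … are
disjoint. -/
noncomputable def HA (U : ℤ) : Finset Vtx :=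
  (Finset.Icc (-(27 * U)) (27 * U) ×ˢ Finset.Icc 0 (39 * U)).filter
    (fun y => y.1 ≤ -U ∨ U ≤ y.1 ∨ U ≤ y.2)

/-- Its edges. -/
noncomputable def SA (U : ℤ) : Finset Edg := H973.ES (HA U)

open Classical in
/-- The vertices of the core with the event `E4`. -/
noncomputable def V4 (L m : ℕ) (F : Finset Edg) : Finset Vtx :=
  (core4 (L * m : ℕ)).filter (fun v => E4 L m v F)

/-- Their energy. -/
noncomputable def En4 (t : ℝ) (L m : ℕ) (F : Finset Edg) : ℝ :=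
  ∑ v ∈ V4 L m F, ∑ w ∈ V4 L m F, ((max (sd v w) 1 : ℤ) : ℝ) ^ (-t)

/-- The good event at the scale `m`. -/
def Gd4 (c0 E0 t : ℝ) (L m : ℕ) (F : Finset Edg) : Prop :=
  (GO (L * m : ℕ) F ∧ GD (L * m : ℕ) F) ∧ c0 * (m : ℝ) ^ (3/4 : ℝ) ≤ ((V4 L m F).card : ℝ) ∧
    En4 t L m F ≤ E0 * (m : ℝ) ^ (3/2 - t)

/-! ### Statements (nothing is assumed) -/

/-- Four arms in an annulus, sharp upper bound. -/
def St_Aa : Prop := ∃ C : ℝ, 0 < C ∧ ∀ (c : ℤ × ℤ) (d k : ℕ), 1 ≤ d → d ≤ k →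
  ∀ S : Finset Edg, blk c k ⊆ S →
    PQ (1/2) S (fun F => A4a c d k ↑F) ≤ C * ((d:ℝ) / k) ^ (5/4 : ℝ)

/-- The same for the dual event. -/
def St_Ad : Prop := ∃ C : ℝ, 0 < C ∧ ∀ (c : ℤ × ℤ) (d k : ℕ), 1 ≤ d → d ≤ k →
  ∀ S : Finset Edg, blk c (k + 1) ⊆ S →
    PQ (1/2) S (fun F => A4d c d k ↑F) ≤ C * ((d:ℝ) / k) ^ (5/4 : ℝ)

/-- Two visits of a box with an excursion in between imply four arms. -/
def St_U : Prop := ∀ (D : Dm) (F : Finset Edg), D.Ok → F ⊆ D.edges →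
  ∀ (c : ℤ × ℤ) (d k : ℕ), d + 6 ≤ k → D.l < c.1 - k → c.1 + k < D.r → 0 < c.2 - k →
  c.2 + k < D.h → ∀ i j l : ℕ, i < j → j < l → l ≤ D.len F →
    inR (c.1 - d) (c.1 + d) (c.2 - d) (c.2 + d) (D.walk F i).1 →
    inR (c.1 - d) (c.1 + d) (c.2 - d) (c.2 + d) (D.walk F l).1 →
    ¬ inR (c.1 - k) (c.1 + k) (c.2 - k) (c.2 + k) (D.walk F j).1 →
    A4a c (d + 2) (k - 2) ↑F ∨ A4d c (d + 2) (k - 2) ↑F

/-- Lower bound for the plus event. -/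
def St_P : Prop := ∃ (L M : ℕ) (c : ℝ), 2 ≤ L ∧ 64 ≤ M ∧ 0 < c ∧ ∀ r : ℕ, 1 ≤ r →
  ∃ β : Bool, c * ((M * r : ℕ) : ℝ) ^ (-(5/4) : ℝ) ≤
    PQ (1/2) (boxE (16 * L * (M * r)))
      (fun F => Plus (4 * L * (M * r)) (M * r) (16 * L * (M * r)) (e0 β) ↑F)

/-- One-point lower bound, with the crossings. -/
def St_one : Prop := ∃ (L M : ℕ) (c : ℝ), 2 ≤ L ∧ 64 ≤ M ∧ 0 < c ∧ ∀ r : ℕ, 1 ≤ r →
  ∀ v ∈ core4 (L * (M * r) : ℕ), ∀ S : Finset Edg, SA (L * (M * r) : ℕ) ⊆ S →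
    c * ((M * r : ℕ) : ℝ) ^ (-(5/4) : ℝ) ≤
      PQ (1/2) S (fun F => E4 L (M * r) v F ∧ GO (L * (M * r) : ℕ) F ∧ GD (L * (M * r) : ℕ) F)

/-- Two-point upper bound. -/
def St_two : Prop := ∀ L : ℕ, 2 ≤ L → ∃ C : ℝ, 0 < C ∧ ∀ m : ℕ, 64 ≤ m →
  ∀ v ∈ core4 (L * m : ℕ), ∀ w ∈ core4 (L * m : ℕ), ∀ S : Finset Edg, SA (L * m : ℕ) ⊆ S →
    PQ (1/2) S (fun F => E4 L m v F ∧ E4 L m w F) ≤
      C * ((max (sd v w) 1 : ℤ) : ℝ) ^ (-(5/4) : ℝ) * (m : ℝ) ^ (-(5/4) : ℝ)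

/-- The good event has positive probability (second moment method). -/
def St_good : Prop := ∀ t : ℝ, 0 < t → t < 3/4 →
  ∃ (L M : ℕ) (c0 E0 p : ℝ), 2 ≤ L ∧ 64 ≤ M ∧ 0 < c0 ∧ 0 < E0 ∧ 0 < p ∧ p ≤ 1 ∧
    ∀ r : ℕ, 1 ≤ r → ∀ S : Finset Edg, SA (L * (M * r) : ℕ) ⊆ S →
      p ≤ PQ (1/2) S (Gd4 c0 E0 t L (M * r))

/-- Independence of the scales. -/
def St_ind : Prop := ∀ (p c0 E0 t : ℝ) (L M r : ℕ), p ≤ 1 → 2 ≤ L → 64 ≤ M → 1 ≤ r →
  (∀ r : ℕ, 1 ≤ r → ∀ S : Finset Edg, SA (L * (M * r) : ℕ) ⊆ S →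
    p ≤ PQ (1/2) S (Gd4 c0 E0 t L (M * r))) →
  ∀ (J : ℕ) (S : Finset Edg), (∀ j < J, SA (L * (M * (64 ^ j * r)) : ℕ) ⊆ S) →
    PQ (1/2) S (fun F => ∀ j < J, ¬ Gd4 c0 E0 t L (M * (64 ^ j * r)) F) ≤ (1 - p) ^ J

/-- The arms of the plus event: one endpoint of `e` is joined to the bottom, the other one to the
top, one face of `e` is dual-joined to the left, the other one to the right. -/
def St_arms : Prop := ∀ L m : ℕ, 2 ≤ L → 64 ≤ m → ∀ (β : Bool) (F : Set Edg),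
  Plus (4 * L * m) m (16 * L * m) (e0 β) F →
  (∃ a a' : Vtx, ((a = src (e0 β) ∧ a' = tgt (e0 β)) ∨ (a = tgt (e0 β) ∧ a' = src (e0 β))) ∧
    (∃ w : Vtx, w.2 = -((16 * L * m : ℕ) : ℤ) ∧
      Reach ((F ∩ ↑(XV (4 * L * m) m (16 * L * m))) \ {e0 β}) a w) ∧
    (∃ w : Vtx, w.2 = ((16 * L * m : ℕ) : ℤ) ∧
      Reach ((F ∩ ↑(XV (4 * L * m) m (16 * L * m))) \ {e0 β}) a' w)) ∧
  (∃ f f' : Vtx, ((f = dsrc (e0 β) ∧ f' = dtgt (e0 β)) ∨ (f = dtgt (e0 β) ∧ f' = dsrc (e0 β))) ∧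
    (∃ g : Vtx, g.1 = -((16 * L * m : ℕ) : ℤ) - 1 ∧
      DReach ((↑(XH (4 * L * m) m (16 * L * m)) \ F) \ {e0 β}) f g) ∧
    (∃ g : Vtx, g.1 = ((16 * L * m : ℕ) : ℤ) ∧
      DReach ((↑(XH (4 * L * m) m (16 * L * m)) \ F) \ {e0 β}) f' g)) ∧
  ¬ Reach ((F ∩ ↑(boxE (16 * L * m))) \ {e0 β}) (src (e0 β)) (tgt (e0 β))

/-- A vertex of the core with the event `E4` is visited twice by the exploration path, with a
large excursion in between. -/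
def St_det : Prop := ∀ (D : Dm) (F : Finset Edg), D.Ok → F ⊆ D.edges → ∀ L m : ℕ, 2 ≤ L →
  64 ≤ m → D.l < -(27 * (L * m : ℕ)) → 27 * (L * m : ℕ) < D.r → 39 * (L * m : ℕ) < D.h →
  GO (L * m : ℕ) F → GD (L * m : ℕ) F → ∀ v ∈ core4 (L * m : ℕ), E4 L m v F →
  ∃ i j l : ℕ, i < j ∧ j < l ∧ l ≤ D.len F ∧ (D.walk F i).1 = v ∧ (D.walk F l).1 = v ∧
    15 * (L * m : ℕ) ≤ sd (D.walk F j).1 v

/-- Double points of a curve with an excursion of radius at least `η` in between. -/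
def DPt (η : ℝ) (f : C(unitInterval, ℂ)) : Set ℂ :=
  {z | ∃ s u t : unitInterval, s ≤ u ∧ u ≤ t ∧ f s = z ∧ f t = z ∧ η ≤ dist (f u) z}

/-- Upper bound for the dimension of the double points of the limits. -/
def St_limU : Prop := St_U → St_Aa → St_Ad → ∀ (R : Rect) (δ : ℕ → ℝ), (∀ i, 0 < δ i) →
  Tendsto δ atTop (𝓝 0) → ∀ μ : ProbabilityMeasure X,
    Tendsto (fun i => R.law (δ i)) atTop (𝓝 μ) → ∀ η : ℝ, 0 < η →
      ∀ᵐ p ∂(μ : Measure X), dimH (DPt η p.1 ∩ R.D) ≤ 3/4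

/-- Lower bound for the dimension of the double points of the limits, near the end point `0`. -/
def St_limL : Prop := St_good → St_ind → St_det → ∀ (R : Rect) (δ : ℕ → ℝ), (∀ i, 0 < δ i) →
  Tendsto δ atTop (𝓝 0) → ∀ μ : ProbabilityMeasure X,
    Tendsto (fun i => R.law (δ i)) atTop (𝓝 μ) → ∀ t : ℝ, 0 < t → t < 3/4 → ∀ ρ : ℝ, 0 < ρ →
      ∀ᵐ p ∂(μ : Measure X), ENNReal.ofReal t ≤
        dimH {z : ℂ | z ∈ R.D ∧ dist z 0 < ρ ∧ ∃ η : ℝ, 0 < η ∧ z ∈ DPt η p.1}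

end Pool.Agent.W92.DP
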