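import Pool.Agent.W92.DP.Loop

/-!
Two visits of a box with an excursion in between imply four arms, proof of `St_U`.
-/

namespace Pool.Agent.W92.DP

open H974 H12S Finset H389NS H984P H984N H342P H984P.SideAux

variable {D : Dm} {F : Finset Edg}

/-- The box of radius `d` around `c`. -/
def Bd (c : ℤ × ℤ) (d : ℕ) : Set Vtx := {v | inR (c.1 - d) (c.1 + d) (c.2 - d) (c.2 + d) v}

theorem mem_Bd {c : ℤ × ℤ} {d : ℕ} {v : Vtx} : v ∈ Bd c d ↔
    (c.1 - d ≤ v.1 ∧ v.1 ≤ c.1 + d) ∧ (c.2 - d ≤ v.2 ∧ v.2 ≤ c.2 + d) := Iff.rfl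

theorem blk_of_ends {c : ℤ × ℤ} {d : ℕ} {e : Edg} : e ∈ blk c d ↔ src e ∈ Bd c d ∧ tgt e ∈ Bd c d := by
  obtain ⟨x, y, _ | _⟩ := e
  · rw [mem_Bd, mem_Bd]
    unfold blk
    simp only [mem_RE_false, src_mk, tgt_false]
    omega
  · rw [mem_Bd, mem_Bd]
    unfold blk
    simp only [mem_RE_true, src_mk, tgt_true]
    omega

theorem dl_blk {c : ℤ × ℤ} {d : ℕ} {e : Edg} :
    dl e ∈ blk c d ↔ dsrc e ∈ Bd c d ∧ dtgt e ∈ Bd c d := by
  rw [blk_of_ends, src_dl, tgt_dl]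

/-- No potential: the far state of an excursion is separated from the start by the box. -/
theorem sep (hD : D.Ok) (hF : F ⊆ D.edges) {c : ℤ × ℤ} {d : ℕ}
    (hs : (D.t, D.h) ∉ Bd c d) {i j l : ℕ} (hij : i < j) (hjl : j < l) (hl : l ≤ D.len F)
    (hi : (D.walk F i).1 ∈ Bd c d) (hll : (D.walk F l).1 ∈ Bd c d)
    (hj : (D.walk F j).1 ∉ Bd c d)
    (h1 : Reach (D.cfg F \ ↑(blk c (d + 2))) (D.t, D.h) (D.walk F j).1)
    (h2 : DReach {e | e ∉ D.cfg F ∧ dl e ∉ blk c (d + 2)} (D.t, D.h) (face (D.walk F j))) :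
    False := by
  obtain ⟨β, hβ1, hβ2⟩ := Lk.box (a := c.1 - d) (b := c.1 + d) (c := c.2 - d) (d := c.2 + d)
    (σ := D.walk F i) (τ := D.walk F l) hi hll
  have hil : i < l := hij.trans hjl
  obtain ⟨hv, hf, hpot⟩ := pot4 (fun ρ => b2 (ρ ∈ AA D F i l) + β ρ) (by
    intro ρ
    have e1 := AA_T4 hD hF hil hl ρ
    have e2 := hβ2 ρ
    have e3 := z2s (inc (D.walk F i) ρ)
    have e4 := z2s (inc (D.walk F l) ρ)
    unfold T4 at e1 e2 ⊢
    linear_combination e1 + e2 + e3 + e4)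
  -- vertices
  have hop : ∀ ρ : St, ae ρ ∈ D.cfg F → ae ρ ∉ blk c (d + 2) → hv ρ.1 = hv (mv ρ).1 := by
    intro ρ g1 g2
    have k1 : ρ.1 ∉ Bd c d ∧ (mv ρ).1 ∉ Bd c d := by
      rw [blk_of_ends] at g2
      obtain ⟨⟨x, y⟩, q⟩ := ρ
      cases q <;>
        simp only [ae_ne, ae_nw, ae_sw, ae_se, mv_ne, mv_nw, mv_sw, mv_se, src_mk, tgt_true,
          tgt_false, mem_Bd] at g2 ⊢ <;> push_cast at g2 ⊢ <;> omega
    have k2 := hpot ρ
    have k3 := hpot (mv ρ)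
    have k4 := AA_nxt hD hF hil hl ρ
    simp only [hβ1 ρ k1.1, add_zero] at k2
    simp only [hβ1 (mv ρ) k1.2, add_zero, face_mv] at k3
    have k5 : ¬ mv ρ = D.walk F i := fun g => k1.2 (g ▸ hi)
    have k6 : ¬ mv ρ = D.walk F l := fun g => k1.2 (g ▸ hll)
    rw [nxt_open g1, b2_not_of k5, b2_not_of k6, add_zero] at k4
    have k7 := z2s (hf (face ρ))
    exact z2_eq (by linear_combination k2 + k3 + k4 - k7)
  have hrV : ∀ v, Reach (D.cfg F \ ↑(blk c (d + 2))) (D.t, D.h) v → hv (D.t, D.h) = hv v := by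
    intro v h
    induction h with
    | refl => rfl
    | tail _ hst ih =>
      obtain ⟨e, ⟨he1, he2⟩, h⟩ := hst
      obtain ⟨ρ, rfl⟩ := exists_ae e
      have k := hop ρ he1 he2
      rw [mv_fst] at k
      rcases ends ρ with ⟨e3, e4⟩ | ⟨e3, e4⟩ <;> rw [e3, e4] at h <;>
        rcases h with ⟨e5, e6⟩ | ⟨e5, e6⟩ <;> rw [ih, ← e5, ← e6, k]
  -- faces
  have hcl : ∀ ρ : St, ae ρ ∉ D.cfg F → dl (ae ρ) ∉ blk c (d + 2) →
      hf (face ρ) = hf (face (rt ρ)) := by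
    intro ρ g1 g2
    have k1 : ρ.1 ∉ Bd c d := by
      rw [dl_blk] at g2
      obtain ⟨⟨x, y⟩, q⟩ := ρ
      cases q <;>
        simp only [ae_ne, ae_nw, ae_sw, ae_se, dsrc_true, dsrc_false, dtgt_mk, mem_Bd] at g2 ⊢ <;>
        push_cast at g2 ⊢ <;> omega
    have k1' : (rt ρ).1 ∉ Bd c d := by rw [rt_fst]; exact k1
    have k2 := hpot ρ
    have k3 := hpot (rt ρ)
    have k4 := AA_nxt hD hF hil hl ρ
    simp only [hβ1 ρ k1, add_zero] at k2
    simp only [hβ1 (rt ρ) k1', add_zero, rt_fst] at k3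
    have k5 : ¬ rt ρ = D.walk F i := fun g => k1' (g ▸ hi)
    have k6 : ¬ rt ρ = D.walk F l := fun g => k1' (g ▸ hll)
    rw [nxt_closed g1, b2_not_of k5, b2_not_of k6, add_zero] at k4
    have k7 := z2s (hv ρ.1)
    exact z2_eq (by linear_combination k2 + k3 + k4 - k7)
  have hrF : ∀ f, DReach {e | e ∉ D.cfg F ∧ dl e ∉ blk c (d + 2)} (D.t, D.h) f →
      hf (D.t, D.h) = hf f := by
    intro f h
    induction h with
    | refl => rfl
    | tail _ hst ih =>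
      obtain ⟨e, ⟨he1, he2⟩, h⟩ := hst
      obtain ⟨ρ, rfl⟩ := exists_ae e
      have k := hcl ρ he1 he2
      rw [face_rt] at k
      rcases faces ρ with ⟨e3, e4⟩ | ⟨e3, e4⟩ <;> rw [e3, e4] at h <;>
        rcases h with ⟨e5, e6⟩ | ⟨e5, e6⟩ <;> rw [ih, ← e5, ← e6, k]
  have e1 := hpot D.start
  have e2 := hpot (D.walk F j)
  have n1 : D.start ∉ AA D F i l := by
    rintro ⟨s, g1, g2, g3⟩
    have h0 : D.walk F 0 = D.walk F s := by rw [g3]; rfl
    have := walk_ne hD hF (Nat.zero_le _) (by omega) h0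
    have hi0 : i = 0 := by omega
    rw [hi0] at hi
    exact hs hi
  have n2 : D.walk F j ∈ AA D F i l := ⟨j, hij.le, hjl, rfl⟩
  have n3 : β D.start = 0 := hβ1 _ hs
  have n4 : β (D.walk F j) = 0 := hβ1 _ hj
  simp only [n3, n4, add_zero, b2_not_of n1, b2_of n2] at e1 e2
  have e3 : hv (D.t, D.h) + hf (D.t, D.h) = 0 := e1
  rw [← hrV _ h1, ← hrF _ h2, e3] at e2
  exact absurd e2 (by decide)

/-- First time in a set. -/
theorem first_hit {P : ℕ → Prop} (h0 : ¬ P 0) {i : ℕ} (hi : P i) :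
    ∃ a, 0 < a ∧ a ≤ i ∧ P a ∧ ∀ s < a, ¬ P s := by
  classical
  refine ⟨Nat.find ⟨i, hi⟩, ?_, Nat.find_min' _ hi, Nat.find_spec ⟨i, hi⟩,
    fun s hs => Nat.find_min ⟨i, hi⟩ hs⟩
  rw [Nat.pos_iff_ne_zero]
  intro h
  apply h0
  have := Nat.find_spec ⟨i, hi⟩
  rwa [h] at this

/-- Last time in a set. -/
theorem last_hit {P : ℕ → Prop} {i j : ℕ} (hi : P i) (hj : ¬ P j) (hij : i ≤ j) :
    ∃ a, i ≤ a ∧ a < j ∧ P a ∧ ∀ s, a < s → s ≤ j → ¬ P s := by
  induction j, hij using Nat.le_induction with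
  | base => exact absurd hi hj
  | succ j hj' ih =>
    by_cases h : P j
    · refine ⟨j, hj', Nat.lt_succ_self _, h, fun s h1 h2 => ?_⟩
      have : s = j + 1 := by omega
      rw [this]; exact hj
    · obtain ⟨a, h1, h2, h3, h4⟩ := ih h
      refine ⟨a, h1, by omega, h3, fun s g1 g2 => ?_⟩
      rcases Nat.lt_or_ge j s with g | g
      · have : s = j + 1 := by omega
        rw [this]; exact hj
      · exact h4 s g1 g

theorem chain (hD : D.Ok) (hF : F ⊆ D.edges) {c : ℤ × ℤ} {d : ℕ} {a b : ℕ} (hab : a ≤ b)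
    (h : ∀ s, a ≤ s → s < b → ¬ ((D.walk F s).1 ∈ Bd c d ∧ (D.walk F (s + 1)).1 ∈ Bd c d)) :
    Reach (D.cfg F \ ↑(blk c d)) (D.walk F a).1 (D.walk F b).1 := by
  induction b, hab using Nat.le_induction with
  | base => exact Reach.refl _ _
  | succ b hb ih =>
    refine (ih (fun s h1 h2 => h s h1 (by omega))).trans ?_
    have h1 := h b hb (Nat.lt_succ_self _)
    rw [walk_succ] at h1 ⊢
    by_cases ho : ae (D.walk F b) ∈ D.cfg F
    · rw [nxt_open ho] at h1 ⊢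
      rw [mv_fst] at h1 ⊢
      have hb' : ae (D.walk F b) ∉ blk c d := by
        intro h2
        rw [blk_of_ends] at h2
        rcases ends (D.walk F b) with ⟨e1, e2⟩ | ⟨e1, e2⟩ <;> rw [e1, e2] at h2
        · exact h1 h2
        · exact h1 h2.symm
      apply Relation.ReflTransGen.single
      exact ⟨ae (D.walk F b), ⟨ho, hb'⟩, ends _⟩
    · rw [nxt_closed ho, rt_fst]
      exact Reach.refl _ _

theorem dchain (hD : D.Ok) (hF : F ⊆ D.edges) {c : ℤ × ℤ} {d : ℕ} {a b : ℕ} (hab : a ≤ b)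
    (h : ∀ s, a ≤ s → s < b →
      ¬ (face (D.walk F s) ∈ Bd c d ∧ face (D.walk F (s + 1)) ∈ Bd c d)) :
    DReach {e | e ∉ D.cfg F ∧ dl e ∉ blk c d} (face (D.walk F a)) (face (D.walk F b)) := by
  induction b, hab using Nat.le_induction with
  | base => exact DReach.refl _ _
  | succ b hb ih =>
    refine (ih (fun s h1 h2 => h s h1 (by omega))).trans ?_
    have h1 := h b hb (Nat.lt_succ_self _)
    rw [walk_succ] at h1 ⊢
    by_cases ho : ae (D.walk F b) ∈ D.cfg F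
    · rw [nxt_open ho, face_mv]
      exact DReach.refl _ _
    · rw [nxt_closed ho] at h1 ⊢
      rw [face_rt] at h1 ⊢
      have hb' : dl (ae (D.walk F b)) ∉ blk c d := by
        intro h2
        rw [dl_blk] at h2
        rcases faces (D.walk F b) with ⟨e1, e2⟩ | ⟨e1, e2⟩ <;> rw [e1, e2] at h2
        · exact h1 h2
        · exact h1 h2.symm
      apply Relation.ReflTransGen.single
      exact ⟨ae (D.walk F b), ⟨ho, hb'⟩, faces _⟩

theorem bd_of {c : ℤ × ℤ} {d : ℕ} {u v : Vtx} (hu : u ∈ Bd c d) (hv : v ∉ Bd c d)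
    (h : |u.1 - v.1| ≤ 1 ∧ |u.2 - v.2| ≤ 1) : u ∈ bdB c d := by
  rw [mem_Bd] at hu hv
  obtain ⟨⟨h1, h2⟩, h3, h4⟩ := hu
  obtain ⟨h5, h6⟩ := h
  rw [abs_le] at h5 h6
  refine ⟨abs_le.mpr ⟨by omega, by omega⟩, abs_le.mpr ⟨by omega, by omega⟩, ?_⟩
  have key : u.1 - c.1 = d ∨ u.1 - c.1 = -d ∨ u.2 - c.2 = d ∨ u.2 - c.2 = -d := by omega
  rcases key with h | h | h | h
  · left; rw [h]; exact abs_of_nonneg (by omega)
  · left; rw [h, abs_neg]; exact abs_of_nonneg (by omega)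
  · right; rw [h]; exact abs_of_nonneg (by omega)
  · right; rw [h, abs_neg]; exact abs_of_nonneg (by omega)

/-- Leaving a larger box. -/
theorem exit_to {c : ℤ × ℤ} {k : ℕ} {G : Set Edg} {u v : Vtx} (hu : u ∈ Bd c k)
    (h : Reach G u v) (hv : v ∉ Bd c k) : ∃ w ∈ bdB c k, Reach (G ∩ ↑(blk c k)) u w := by
  obtain ⟨w, h1, h2, h3⟩ := first_exit hu h (by rw [mem_Bd] at hv; omega)
  refine ⟨w, ?_, h3⟩
  obtain ⟨⟨h4, h5⟩, h6, h7⟩ := h1
  refine ⟨abs_le.mpr ⟨by omega, by omega⟩, abs_le.mpr ⟨by omega, by omega⟩, ?_⟩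
  have key : w.1 - c.1 = k ∨ w.1 - c.1 = -k ∨ w.2 - c.2 = k ∨ w.2 - c.2 = -k := by omega
  rcases key with h | h | h | h
  · left; rw [h]; exact abs_of_nonneg (by omega)
  · left; rw [h, abs_neg]; exact abs_of_nonneg (by omega)
  · right; rw [h]; exact abs_of_nonneg (by omega)
  · right; rw [h, abs_neg]; exact abs_of_nonneg (by omega)

theorem bdB_Bd {c : ℤ × ℤ} {d : ℕ} {u : Vtx} (h : u ∈ bdB c d) : u ∈ Bd c d := by
  obtain ⟨h1, h2, -⟩ := h
  rw [abs_le] at h1 h2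
  rw [mem_Bd]
  omega

theorem Bd_mono {c : ℤ × ℤ} {d k : ℕ} (h : d ≤ k) : Bd c d ⊆ Bd c k := by
  intro v hv
  rw [mem_Bd] at hv ⊢
  omega

theorem face_near (σ : St) : |σ.1.1 - (face σ).1| ≤ 1 ∧ |σ.1.2 - (face σ).2| ≤ 1 := by
  obtain ⟨⟨x, y⟩, q⟩ := σ
  cases q <;> simp

theorem face_step (G : Set Edg) (σ : St) : |(face (nxt G σ)).1 - (face σ).1| ≤ 1 ∧
    |(face (nxt G σ)).2 - (face σ).2| ≤ 1 := by
  by_cases h : ae σ ∈ G
  · rw [nxt_open h, face_mv]; simp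
  · rw [nxt_closed h]
    obtain ⟨⟨x, y⟩, q⟩ := σ
    cases q <;> simp

theorem st_U : St_U := by
  intro D F hD hF c d k hdk hl hr hb ht i j l hij hjl hlen hi hll hj
  have hsv : (D.t, D.h) ∉ Bd c k := by rw [mem_Bd]; simp only; omega
  have hcfg : ∀ e : Edg, e ∈ D.cfg F → e ∈ blk c k → e ∈ F := by
    intro e h1 h2
    rcases h1 with h1 | h1
    · exact h1
    · exfalso
      rw [blk_of_ends, mem_Bd, mem_Bd] at h2
      obtain ⟨x, y, b⟩ := e
      unfold Dm.wir at h1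
      simp only [Set.mem_ofPred_eq] at h1
      cases b
      · simp only [src_mk, tgt_false] at h2
        simp at h1
        omega
      · simp only [src_mk, tgt_true] at h2
        simp at h1
        omega
  have hd2 : Bd c d ⊆ Bd c (d + 2) := Bd_mono (by omega)
  have hd2k : Bd c (d + 2) ⊆ Bd c (k - 2) := Bd_mono (by omega)
  have hk2k : Bd c (k - 2) ⊆ Bd c k := Bd_mono (by omega)
  have hj' : (D.walk F j).1 ∉ Bd c k := hj
  by_cases hα : Reach (D.cfg F \ ↑(blk c (d + 2))) (D.t, D.h) (D.walk F j).1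
  · right
    have hβ : ¬ DReach {e | e ∉ D.cfg F ∧ dl e ∉ blk c (d + 2)} (D.t, D.h)
        (face (D.walk F j)) := fun h =>
      sep hD hF (fun h' => hsv (hk2k (hd2k (hd2 h')))) hij hjl hlen hi hll
        (fun h' => hj' (hk2k (hd2k (hd2 h')))) hα h
    -- faces
    have hi' : face (D.walk F i) ∈ Bd c (d + 2) := by
      have h1 := face_near (D.walk F i)
      rw [abs_le, abs_le] at h1
      have h2 : (D.walk F i).1 ∈ Bd c d := hi
      rw [mem_Bd] at h2 ⊢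
      push_cast
      omega
    have hfj : face (D.walk F j) ∉ Bd c (k - 2) := by
      have h1 := face_near (D.walk F j)
      rw [abs_le, abs_le] at h1
      rw [mem_Bd] at hj' ⊢
      have : ((k - 2 : ℕ) : ℤ) = (k:ℤ) - 2 := by omega
      rw [this]
      omega
    have h0 : face (D.walk F 0) ∉ Bd c (d + 2) := fun h' => hsv (hk2k (hd2k h'))
    obtain ⟨a, ha0, hai, haP, haN⟩ := first_hit (P := fun s => face (D.walk F s) ∈ Bd c (d + 2))
      h0 hi'
    obtain ⟨b, hib, hbj, hbP, hbN⟩ := last_hit (P := fun s => face (D.walk F s) ∈ Bd c (d + 2))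
      hi' (fun h' => hfj (hd2k h')) hij.le
    have r1 : DReach {e | e ∉ D.cfg F ∧ dl e ∉ blk c (d + 2)} (D.t, D.h)
        (face (D.walk F a)) :=
      dchain hD hF (Nat.zero_le a) (fun s _ h2 h3 => haN s h2 h3.1)
    have r2 : DReach {e | e ∉ D.cfg F ∧ dl e ∉ blk c (d + 2)} (face (D.walk F b))
        (face (D.walk F j)) :=
      dchain hD hF hbj.le (fun s h1 h2 h3 => hbN (s + 1) (by omega) (by omega) h3.2)
    have ba : face (D.walk F a) ∈ bdB c (d + 2) := by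
      obtain ⟨a', rfl⟩ : ∃ a', a = a' + 1 := ⟨a - 1, by omega⟩
      refine bd_of haP (haN a' (by omega)) ?_
      rw [walk_succ]
      exact face_step _ _
    have bb : face (D.walk F b) ∈ bdB c (d + 2) := by
      refine bd_of hbP (hbN (b + 1) (by omega) (by omega)) ?_
      have := face_step (D.cfg F) (D.walk F b)
      rw [walk_succ, abs_sub_comm, abs_sub_comm (face (D.walk F b)).2]
      exact this
    have hsub : dl '' {e | e ∉ D.cfg F ∧ dl e ∉ blk c (d + 2)} ∩ ↑(blk c (k - 2)) ⊆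
        dl '' ((↑F : Set Edg)ᶜ) ∩ ↑(blk c (k - 2) \ blk c (d + 2)) := by
      rintro _ ⟨⟨e, ⟨h1, h2⟩, rfl⟩, h3⟩
      refine ⟨⟨e, fun h => h1 (Or.inl h), rfl⟩, ?_⟩
      rw [Finset.coe_sdiff]
      exact ⟨h3, h2⟩
    refine ⟨face (D.walk F a), ba, face (D.walk F b), bb, ?_, ?_, ?_⟩
    · obtain ⟨w, hw, hr⟩ := exit_to (hd2k haP) (reach_dl.mpr r1.symm) (fun h' => hsv (hk2k h'))
      exact ⟨w, hw, hr.mono hsub⟩
    · obtain ⟨w, hw, hr⟩ := exit_to (hd2k hbP) (reach_dl.mpr r2) hfj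
      exact ⟨w, hw, hr.mono hsub⟩
    · intro hcon
      apply hβ
      refine r1.trans (DReach.trans ?_ r2)
      rw [← reach_dl]
      refine hcon.mono ?_
      rintro _ ⟨⟨e, h1, rfl⟩, h3⟩
      rw [Finset.coe_sdiff] at h3
      refine ⟨e, ⟨fun h => ?_, h3.2⟩, rfl⟩
      rcases h with h | h
      · exact h1 h
      · have h4 := h3.1
        rw [Finset.mem_coe, dl_blk, mem_Bd, mem_Bd] at h4
        have e1 : ((k - 2 : ℕ) : ℤ) = (k:ℤ) - 2 := by omega
        rw [e1] at h4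
        obtain ⟨x, y, b⟩ := e
        unfold Dm.wir at h
        simp only [Set.mem_ofPred_eq] at h
        cases b
        · simp only [dsrc_false, dtgt_mk] at h4
          simp at h
          omega
        · simp only [dsrc_true, dtgt_mk] at h4
          simp at h
          omega
  · left
    have hjk : (D.walk F j).1 ∉ Bd c (k - 2) := fun h => hj' (hk2k h)
    have hi' : (D.walk F i).1 ∈ Bd c (d + 2) := hd2 hi
    have h0 : (D.walk F 0).1 ∉ Bd c (d + 2) := fun h' => hsv (hk2k (hd2k h'))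
    obtain ⟨a, ha0, hai, haP, haN⟩ := first_hit (P := fun s => (D.walk F s).1 ∈ Bd c (d + 2))
      h0 hi'
    obtain ⟨b, hib, hbj, hbP, hbN⟩ := last_hit (P := fun s => (D.walk F s).1 ∈ Bd c (d + 2))
      hi' (fun h' => hjk (hd2k h')) hij.le
    have r1 : Reach (D.cfg F \ ↑(blk c (d + 2))) (D.t, D.h) (D.walk F a).1 :=
      chain hD hF (Nat.zero_le a) (fun s _ h2 h3 => haN s h2 h3.1)
    have r2 : Reach (D.cfg F \ ↑(blk c (d + 2))) (D.walk F b).1 (D.walk F j).1 :=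
      chain hD hF hbj.le (fun s h1 h2 h3 => hbN (s + 1) (by omega) (by omega) h3.2)
    have ba : (D.walk F a).1 ∈ bdB c (d + 2) := by
      obtain ⟨a', rfl⟩ : ∃ a', a = a' + 1 := ⟨a - 1, by omega⟩
      refine bd_of haP (haN a' (by omega)) ?_
      rw [walk_succ]
      exact nxt_fst _ _
    have bb : (D.walk F b).1 ∈ bdB c (d + 2) := by
      refine bd_of hbP (hbN (b + 1) (by omega) (by omega)) ?_
      have := nxt_fst (D.cfg F) (D.walk F b)
      rw [walk_succ, abs_sub_comm, abs_sub_comm (D.walk F b).1.2]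
      exact this
    have hsub : (D.cfg F \ ↑(blk c (d + 2))) ∩ ↑(blk c (k - 2)) ⊆
        (↑F : Set Edg) ∩ ↑(blk c (k - 2) \ blk c (d + 2)) := by
      rintro e ⟨⟨h1, h2⟩, h3⟩
      rw [Finset.coe_sdiff]
      refine ⟨hcfg e h1 ?_, h3, h2⟩
      rw [Finset.mem_coe, blk_of_ends] at h3
      rw [blk_of_ends]
      exact ⟨hk2k h3.1, hk2k h3.2⟩
    refine ⟨(D.walk F a).1, ba, (D.walk F b).1, bb, ?_, ?_, ?_⟩
    · obtain ⟨w, hw, hr⟩ := exit_to (hd2k haP) r1.symm (fun h' => hsv (hk2k h'))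
      exact ⟨w, hw, hr.mono hsub⟩
    · obtain ⟨w, hw, hr⟩ := exit_to (hd2k hbP) r2 hjk
      exact ⟨w, hw, hr.mono hsub⟩
    · intro hcon
      apply hα
      refine r1.trans (Reach.trans ?_ r2)
      refine hcon.mono ?_
      rintro e ⟨h1, h3⟩
      rw [Finset.coe_sdiff] at h3
      exact ⟨Or.inl h1, h3.2⟩

end Pool.Agent.W92.DP
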