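import Pool.Agent.W92.DP.Defs

/-!
Double points of a curve: from the bounds for the points with a large excursion to the set of all
double points and the set of all double times.
-/

namespace Pool.Agent.W92.DP

open H974 H984N MeasureTheory Filter Topology Set
open scoped ENNReal NNReal

/-- The double points of a curve. -/
def dbl (f : C(unitInterval, ℂ)) : Set ℂ := {z | ∃ s t : unitInterval, s ≠ t ∧ f s = z ∧ f t = z}

/-- The double times of a curve. -/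
def dbt (f : C(unitInterval, ℂ)) : Set unitInterval := {s | ∃ t : unitInterval, t ≠ s ∧ f t = f s}

theorem dimH_Icc {s t : unitInterval} (h : s < t) : dimH (Set.Icc s t) = 1 := by
  have h1 : dimH ((Subtype.val : unitInterval → ℝ) '' Set.Icc s t) = dimH (Set.Icc s t) :=
    (isometry_subtype_coe (s := unitInterval)).dimH_image _
  have h2 : (Subtype.val : unitInterval → ℝ) '' Set.Icc s t = Set.Icc (s : ℝ) t := by
    ext x
    constructor
    · rintro ⟨u, hu, rfl⟩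
      exact ⟨hu.1, hu.2⟩
    · rintro ⟨h3, h4⟩
      exact ⟨⟨x, s.2.1.trans h3, h4.trans t.2.2⟩, ⟨h3, h4⟩, rfl⟩
  rw [← h1, h2]
  have h3 : (interior (Set.Icc (s : ℝ) t)).Nonempty := by
    rw [interior_Icc]
    exact Set.nonempty_Ioo.mpr h
  rw [Real.dimH_of_nonempty_interior h3]
  simp

theorem dbl_of_DPt {f : C(unitInterval, ℂ)} {η : ℝ} (hη : 0 < η) : DPt η f ⊆ dbl f := by
  rintro z ⟨s, u, t, h1, h2, h3, h4, h5⟩
  refine ⟨s, t, ?_, h3, h4⟩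
  rintro rfl
  have : u = s := le_antisymm h2 h1
  rw [this, h3, dist_self] at h5
  linarith

theorem DPt_of_dbl {f : C(unitInterval, ℂ)}
    (h3 : ∀ E : Set unitInterval, dimH (f '' E) = 7 / 4 * dimH E) :
    dbl f ⊆ ⋃ k : ℕ, DPt (1 / ((k:ℝ) + 1)) f := by
  rintro z ⟨s, t, hst, hs, ht⟩
  wlog h : s < t generalizing s t
  · exact this t s hst.symm ht hs (lt_of_le_of_ne (not_lt.mp h) hst.symm)
  obtain ⟨u, hu, hz⟩ : ∃ u ∈ Set.Icc s t, f u ≠ z := by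
    by_contra hcon
    push Not at hcon
    have e1 : f '' Set.Icc s t ⊆ {z} := by
      rintro _ ⟨u, hu, rfl⟩
      exact hcon u hu
    have e2 : dimH (f '' Set.Icc s t) = 0 := (Set.subsingleton_singleton.anti e1).dimH_zero
    rw [h3, dimH_Icc h, mul_one] at e2
    have e3 : (7 / 4 : ℝ≥0∞) ≠ 0 := by
      apply ENNReal.div_ne_zero.mpr
      exact ⟨by norm_num, by norm_num⟩
    exact e3 e2
  have hd : 0 < dist (f u) z := dist_pos.mpr hz
  obtain ⟨k, hk⟩ := exists_nat_one_div_lt hd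
  exact Set.mem_iUnion.mpr ⟨k, s, u, t, hu.1, hu.2, hs, ht, hk.le⟩

theorem asm {D : Set ℂ} {f : C(unitInterval, ℂ)}
    (h1 : ∀ k : ℕ, dimH (DPt (1 / ((k:ℝ) + 1)) f ∩ D) ≤ 3/4)
    (h2 : ∀ j k : ℕ, ENNReal.ofReal (3/4 - 1 / ((k:ℝ) + 2)) ≤
      dimH {z : ℂ | z ∈ D ∧ dist z 0 < 1 / ((j:ℝ) + 1) ∧ ∃ η : ℝ, 0 < η ∧ z ∈ DPt η f})
    (h3 : ∀ E : Set unitInterval, dimH (f '' E) = 7 / 4 * dimH E) :
    (∀ ρ : ℝ, 0 < ρ → dimH {z : ℂ | z ∈ D ∧ dist z 0 < ρ ∧ z ∈ dbl f} = 3/4 ∧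
      dimH {s : unitInterval | f s ∈ D ∧ dist (f s) 0 < ρ ∧ s ∈ dbt f} = 3/7) ∧
      dimH {z : ℂ | z ∈ D ∧ z ∈ dbl f} = 3/4 ∧
      dimH {s : unitInterval | f s ∈ D ∧ s ∈ dbt f} = 3/7 := by
  have up : dimH {z : ℂ | z ∈ D ∧ z ∈ dbl f} ≤ 3/4 := by
    have e1 : {z : ℂ | z ∈ D ∧ z ∈ dbl f} ⊆ ⋃ k : ℕ, DPt (1 / ((k:ℝ) + 1)) f ∩ D := by
      rintro z ⟨hz1, hz2⟩
      obtain ⟨k, hk⟩ := Set.mem_iUnion.mp (DPt_of_dbl h3 hz2)
      exact Set.mem_iUnion.mpr ⟨k, hk, hz1⟩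
    refine (dimH_mono e1).trans ?_
    rw [dimH_iUnion]
    exact iSup_le h1
  have lo : ∀ ρ : ℝ, 0 < ρ → 3/4 ≤ dimH {z : ℂ | z ∈ D ∧ dist z 0 < ρ ∧ z ∈ dbl f} := by
    intro ρ hρ
    obtain ⟨j, hj⟩ := exists_nat_one_div_lt hρ
    have e1 : ∀ k : ℕ, ENNReal.ofReal (3/4 - 1 / ((k:ℝ) + 2)) ≤
        dimH {z : ℂ | z ∈ D ∧ dist z 0 < ρ ∧ z ∈ dbl f} := by
      intro k
      refine (h2 j k).trans (dimH_mono ?_)
      rintro z ⟨hz1, hz2, η, hη, hz3⟩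
      exact ⟨hz1, hz2.trans hj, dbl_of_DPt hη hz3⟩
    have e2 : Tendsto (fun k : ℕ => ENNReal.ofReal (3/4 - 1 / ((k:ℝ) + 2))) atTop
        (𝓝 (ENNReal.ofReal (3/4))) := by
      apply ENNReal.tendsto_ofReal
      have : Tendsto (fun k : ℕ => 1 / ((k:ℝ) + 2)) atTop (𝓝 0) := by
        apply Tendsto.div_atTop tendsto_const_nhds
        exact tendsto_atTop_add_const_right _ _ tendsto_natCast_atTop_atTop
      simpa using tendsto_const_nhds.sub this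
    have e3 := le_of_tendsto' e2 e1
    have e4 : ENNReal.ofReal (3/4) = 3/4 := by
      rw [ENNReal.ofReal_div_of_pos (by norm_num)]
      norm_num
    rwa [e4] at e3
  have key : ∀ x : ℝ≥0∞, 7 / 4 * x = 3 / 4 → x = 3 / 7 := by
    intro x hx
    have hxt : x ≠ ⊤ := by
      rintro rfl
      rw [ENNReal.mul_top (by
        apply ENNReal.div_ne_zero.mpr
        exact ⟨by norm_num, by norm_num⟩)] at hx
      have : (3 / 4 : ℝ≥0∞) ≠ ⊤ := ENNReal.div_ne_top (by norm_num) (by norm_num)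
      exact this hx.symm
    have e1 := congrArg ENNReal.toReal hx
    rw [ENNReal.toReal_mul, ENNReal.toReal_div, ENNReal.toReal_div] at e1
    simp only [ENNReal.toReal_ofNat] at e1
    rw [← ENNReal.ofReal_toReal hxt]
    have e2 : x.toReal = 3 / 7 := by linarith
    rw [e2, ENNReal.ofReal_div_of_pos (by norm_num)]
    norm_num
  have c1 : ∀ ρ : ℝ, 0 < ρ → dimH {z : ℂ | z ∈ D ∧ dist z 0 < ρ ∧ z ∈ dbl f} = 3/4 := by
    intro ρ hρ
    refine le_antisymm ((dimH_mono ?_).trans up) (lo ρ hρ)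
    rintro z ⟨hz1, -, hz2⟩
    exact ⟨hz1, hz2⟩
  have c2 : dimH {z : ℂ | z ∈ D ∧ z ∈ dbl f} = 3/4 := by
    refine le_antisymm up ((lo 1 one_pos).trans (dimH_mono ?_))
    rintro z ⟨hz1, -, hz2⟩
    exact ⟨hz1, hz2⟩
  have im : ∀ P : ℂ → Prop, f '' {s : unitInterval | P (f s) ∧ s ∈ dbt f} =
      {z : ℂ | P z ∧ z ∈ dbl f} := by
    intro P
    ext z
    constructor
    · rintro ⟨s, ⟨h4, t, h5, h6⟩, rfl⟩
      exact ⟨h4, s, t, h5.symm, rfl, h6⟩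
    · rintro ⟨h4, s, t, h5, h6, h7⟩
      refine ⟨s, ⟨by rw [h6]; exact h4, t, h5.symm, by rw [h6, h7]⟩, h6⟩
  refine ⟨fun ρ hρ => ⟨c1 ρ hρ, ?_⟩, c2, ?_⟩
  · apply key
    have e1 := im (fun z => z ∈ D ∧ dist z 0 < ρ)
    simp only [and_assoc] at e1
    rw [← h3, e1]
    exact c1 ρ hρ
  · apply key
    rw [← h3, im (fun z => z ∈ D)]
    exact c2

end Pool.Agent.W92.DP
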