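import Pool.Agent.W92.DP.Defs
import Pool.Agent.H984R3.Per.SideL
import Pool.Agent.H443R3.BT.Conv

/-!
Two visits of a box with an excursion in between imply four arms (potentials of the closed curve
formed by the excursion and a path inside of the box).
-/

namespace Pool.Agent.W92.DP

open H974 H12S Finset H389NS H984P H984N H342P H984P.SideAux

theorem mv_op (σ : St) : mv (op σ) = rt σ := by
  obtain ⟨⟨x, y⟩, q⟩ := σ
  cases q <;> simp [op]

theorem rt_op (σ : St) : rt (op σ) = mv σ := by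
  obtain ⟨⟨x, y⟩, q⟩ := σ
  cases q <;> simp [op]

theorem mv_inj {σ τ : St} : mv σ = mv τ ↔ σ = τ := by
  constructor
  · intro h
    obtain ⟨⟨x, y⟩, q⟩ := σ
    obtain ⟨⟨x', y'⟩, q'⟩ := τ
    cases q <;> cases q' <;> simp_all
  · rintro rfl; rfl

theorem rt_inj {σ τ : St} : rt σ = rt τ ↔ σ = τ := by
  constructor
  · intro h
    obtain ⟨⟨x, y⟩, q⟩ := σ
    obtain ⟨⟨x', y'⟩, q'⟩ := τ
    cases q <;> cases q' <;> simp_all
  · rintro rfl; rfl

theorem z2s (a : ZMod 2) : a + a = 0 := by revert a; decide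

/-- Sum over the four states at an edge. -/
def T4 (α : St → ZMod 2) (ρ : St) : ZMod 2 := α ρ + α (op ρ) + (α (mv ρ) + α (rt ρ))

/-- The state `σ` leaves the edge of `ρ`. -/
noncomputable def inc (σ ρ : St) : ZMod 2 := b2 (mv ρ = σ) + b2 (rt ρ = σ)

/-- A chain of states over `B` from `σ` to `τ`, modulo two. -/
def Lk (B : Set Vtx) (σ τ : St) : Prop :=
  ∃ α : St → ZMod 2, (∀ ρ : St, ρ.1 ∉ B → α ρ = 0) ∧ ∀ ρ, T4 α ρ = inc σ ρ + inc τ ρ

theorem Lk.refl (B : Set Vtx) (σ : St) : Lk B σ σ :=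
  ⟨fun _ => 0, fun _ _ => rfl, fun ρ => by unfold T4; rw [z2s (inc σ ρ)]; rfl⟩

theorem Lk.symm {B : Set Vtx} {σ τ : St} (h : Lk B σ τ) : Lk B τ σ := by
  obtain ⟨α, h1, h2⟩ := h
  exact ⟨α, h1, fun ρ => by rw [h2, add_comm]⟩

theorem Lk.trans {B : Set Vtx} {σ τ υ : St} (h : Lk B σ τ) (h' : Lk B τ υ) : Lk B σ υ := by
  obtain ⟨α, h1, h2⟩ := h
  obtain ⟨β, h3, h4⟩ := h'
  refine ⟨fun ρ => α ρ + β ρ, fun ρ hρ => by show α ρ + β ρ = 0; rw [h1 ρ hρ, h3 ρ hρ, add_zero], fun ρ => ?_⟩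
  have e1 := h2 ρ
  have e2 := h4 ρ
  have e3 := z2s (inc τ ρ)
  unfold T4 at e1 e2 ⊢
  linear_combination e1 + e2 + e3

theorem Lk.sR {B : Set Vtx} {σ : St} (h : σ.1 ∈ B) : Lk B σ (rt σ) := by
  refine ⟨fun ρ => b2 (ρ = σ), fun ρ hρ => b2_not_of (fun e => hρ (e ▸ h)), fun ρ => ?_⟩
  unfold T4 inc
  have e1 : b2 (rt ρ = rt σ) = b2 (ρ = σ) := b2_congr rt_inj
  have e2 : b2 (mv ρ = rt σ) = b2 (op ρ = σ) := by
    rw [← rt_op]; exact b2_congr rt_inj
  rw [e1, e2]
  ring

theorem Lk.sM {B : Set Vtx} {σ : St} (h : σ.1 ∈ B) : Lk B σ (mv σ) := by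
  refine ⟨fun ρ => b2 (ρ = σ), fun ρ hρ => b2_not_of (fun e => hρ (e ▸ h)), fun ρ => ?_⟩
  unfold T4 inc
  have e1 : b2 (mv ρ = mv σ) = b2 (ρ = σ) := b2_congr mv_inj
  have e2 : b2 (rt ρ = mv σ) = b2 (op ρ = σ) := by
    rw [← mv_op]; exact b2_congr mv_inj
  rw [e1, e2]
  ring

theorem Lk.vert {B : Set Vtx} {v : Vtx} (h : v ∈ B) (q : Q4) : Lk B (v, q) (v, .ne) := by
  have h1 : Lk B (v, .ne) (v, .se) := by simpa using Lk.sR (σ := (v, Q4.ne)) h
  have h2 : Lk B (v, .se) (v, .sw) := by simpa using Lk.sR (σ := (v, Q4.se)) h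
  have h3 : Lk B (v, .sw) (v, .nw) := by simpa using Lk.sR (σ := (v, Q4.sw)) h
  cases q
  · exact Lk.refl _ _
  · exact (h1.trans (h2.trans h3)).symm
  · exact (h1.trans h2).symm
  · exact h1.symm

theorem Lk.box {a b c d : ℤ} {σ τ : St} (hσ : inR a b c d σ.1) (hτ : inR a b c d τ.1) :
    Lk {v | inR a b c d v} σ τ := by
  have hx : ∀ (n : ℕ) (x y : ℤ), inR a b c d (x, y) → inR a b c d (x + n, y) →
      Lk {v | inR a b c d v} ((x, y), .ne) ((x + n, y), .ne) := by
    intro n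
    induction n with
    | zero => intro x y _ _; simpa using Lk.refl _ _
    | succ n ih =>
      intro x y h1 h2
      have h3 : inR a b c d (x + 1, y) := by
        unfold inR at h1 h2 ⊢; push_cast at h2; simp only at h1 h2 ⊢; omega
      have h4 := ih (x + 1) y h3 (by
        unfold inR at h2 ⊢; push_cast at h2; simp only at h2 ⊢; omega)
      have e : x + 1 + (n:ℤ) = x + ((n + 1 : ℕ) : ℤ) := by push_cast; ring
      rw [e] at h4
      refine Lk.trans ?_ h4
      have h5 := Lk.sM (B := {v | inR a b c d v}) (σ := ((x, y), Q4.ne)) h1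
      rw [mv_ne] at h5
      exact h5.trans (Lk.vert h3 _)
  have hy : ∀ (n : ℕ) (x y : ℤ), inR a b c d (x, y) → inR a b c d (x, y + n) →
      Lk {v | inR a b c d v} ((x, y), .ne) ((x, y + n), .ne) := by
    intro n
    induction n with
    | zero => intro x y _ _; simpa using Lk.refl _ _
    | succ n ih =>
      intro x y h1 h2
      have h3 : inR a b c d (x, y + 1) := by
        unfold inR at h1 h2 ⊢; push_cast at h2; simp only at h1 h2 ⊢; omega
      have h4 := ih x (y + 1) h3 (by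
        unfold inR at h2 ⊢; push_cast at h2; simp only at h2 ⊢; omega)
      have e : y + 1 + (n:ℤ) = y + ((n + 1 : ℕ) : ℤ) := by push_cast; ring
      rw [e] at h4
      refine Lk.trans ?_ h4
      have h5 := Lk.sM (B := {v | inR a b c d v}) (σ := ((x, y), Q4.nw)) h1
      rw [mv_nw] at h5
      exact (Lk.vert h1 .nw).symm.trans (h5.trans (Lk.vert h3 _))
  have key : ∀ ρ : St, inR a b c d ρ.1 → Lk {v | inR a b c d v} ((a, c), .ne) ρ := by
    rintro ⟨⟨x, y⟩, q⟩ h
    unfold inR at h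
    simp only at h
    have h1 := hx (x - a).toNat a c (by unfold inR; simp only; omega)
      (by unfold inR; simp only; omega)
    have h2 := hy (y - c).toNat x c (by unfold inR; simp only; omega)
      (by unfold inR; simp only; omega)
    have e1 : a + ((x - a).toNat : ℤ) = x := by omega
    have e2 : c + ((y - c).toNat : ℤ) = y := by omega
    rw [e1] at h1
    rw [e2] at h2
    exact h1.trans (h2.trans (Lk.vert (by unfold inR; simp only [Set.mem_ofPred_eq]; omega) q).symm)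
  exact (key σ hσ).symm.trans (key τ hτ)

theorem pot4 (α : St → ZMod 2) (h : ∀ ρ, T4 α ρ = 0) :
    ∃ hv hf : Vtx → ZMod 2, ∀ σ : St, hv σ.1 + hf (face σ) = α σ := by
  apply pot_exists
  · intro x y
    have := h ((x, y), .ne)
    unfold T4 at this
    simp only [op, mv_ne, rt_ne] at this
    linear_combination this
  · intro x y
    have := h ((x, y), .nw)
    unfold T4 at this
    simp only [op, mv_nw, rt_nw] at this
    linear_combination this

variable {D : Dm} {F : Finset Edg}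

/-- The states visited at the times `i ≤ s < l`. -/
def AA (D : Dm) (F : Finset Edg) (i l : ℕ) : Set St := {ρ | ∃ s, i ≤ s ∧ s < l ∧ D.walk F s = ρ}

theorem walk_ne (hD : D.Ok) (hF : F ⊆ D.edges) {i j : ℕ} (hi : i ≤ D.len F) (hj : j ≤ D.len F)
    (h : D.walk F i = D.walk F j) : i = j := by
  rcases Nat.lt_trichotomy i j with h1 | h1 | h1
  · exact absurd h (walk_inj hD hF h1 hj)
  · exact h1
  · exact absurd h.symm (walk_inj hD hF h1 hi)

theorem AA_nxt (hD : D.Ok) (hF : F ⊆ D.edges) {i l : ℕ} (hil : i < l) (hl : l ≤ D.len F)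
    (ρ : St) : b2 (ρ ∈ AA D F i l) + b2 (nxt (D.cfg F) ρ ∈ AA D F i l) =
      b2 (nxt (D.cfg F) ρ = D.walk F i) + b2 (nxt (D.cfg F) ρ = D.walk F l) := by
  have h1 : (ρ ∈ AA D F i l) ↔ ∃ s, i < s ∧ s ≤ l ∧ D.walk F s = nxt (D.cfg F) ρ := by
    constructor
    · rintro ⟨s, h1, h2, rfl⟩
      exact ⟨s + 1, by omega, by omega, walk_succ D F s⟩
    · rintro ⟨s, h1, h2, h3⟩
      obtain ⟨s, rfl⟩ : ∃ s', s = s' + 1 := ⟨s - 1, by omega⟩
      rw [walk_succ] at h3
      exact ⟨s, by omega, by omega, (nxt_bij _).1 h3⟩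
  rw [b2_congr h1]
  generalize nxt (D.cfg F) ρ = x
  by_cases hx : x = D.walk F i
  · have n1 : ¬ ∃ s, i < s ∧ s ≤ l ∧ D.walk F s = x := by
      rintro ⟨s, g1, g2, g3⟩
      rw [hx] at g3
      have := walk_ne hD hF (by omega) (by omega) g3
      omega
    have n2 : x ∈ AA D F i l := ⟨i, le_rfl, hil, hx.symm⟩
    have n3 : ¬ x = D.walk F l := by
      intro g
      rw [hx] at g
      have := walk_ne hD hF (by omega) hl g
      omega
    rw [b2_not_of n1, b2_of n2, b2_of hx, b2_not_of n3]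
    rfl
  · by_cases hy : x = D.walk F l
    · have n1 : ∃ s, i < s ∧ s ≤ l ∧ D.walk F s = x := ⟨l, hil, le_rfl, hy.symm⟩
      have n2 : ¬ x ∈ AA D F i l := by
        rintro ⟨s, g1, g2, g3⟩
        rw [hy] at g3
        have := walk_ne hD hF (by omega) hl g3
        omega
      rw [b2_of n1, b2_not_of n2, b2_not_of hx, b2_of hy, add_comm]
    · have n1 : (∃ s, i < s ∧ s ≤ l ∧ D.walk F s = x) ↔ x ∈ AA D F i l := by
        constructor
        · rintro ⟨s, g1, g2, g3⟩
          refine ⟨s, g1.le, lt_of_le_of_ne g2 ?_, g3⟩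
          rintro rfl
          exact hy g3.symm
        · rintro ⟨s, g1, g2, g3⟩
          refine ⟨s, lt_of_le_of_ne g1 ?_, g2.le, g3⟩
          rintro rfl
          exact hx g3.symm
      rw [b2_congr n1, b2_not_of hx, b2_not_of hy, z2s]
      rfl

theorem AA_T4 (hD : D.Ok) (hF : F ⊆ D.edges) {i l : ℕ} (hil : i < l) (hl : l ≤ D.len F)
    (ρ : St) : T4 (fun ρ => b2 (ρ ∈ AA D F i l)) ρ = inc (D.walk F i) ρ + inc (D.walk F l) ρ := by
  have h1 := AA_nxt hD hF hil hl ρ
  have h2 := AA_nxt hD hF hil hl (op ρ)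
  unfold T4 inc
  by_cases h : ae ρ ∈ D.cfg F
  · have h' : ae (op ρ) ∈ D.cfg F := by rw [ae_op]; exact h
    rw [nxt_open h] at h1
    rw [nxt_open h', mv_op] at h2
    linear_combination h1 + h2
  · have h' : ae (op ρ) ∉ D.cfg F := by rw [ae_op]; exact h
    rw [nxt_closed h] at h1
    rw [nxt_closed h', rt_op] at h2
    linear_combination h1 + h2

end Pool.Agent.W92.DP
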